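import Pool.Agent.W973.IP.FDefs

/-! Polynomial time for the formulas `FF` and `kF`. -/

set_option autoImplicit false

namespace Pool.Agent.W303.IP

open Pool.Agent.W973.IP Pool.Agent.NPC Pool.Agent.NPC.ER Pool.Agent.NPC.H612

variable {α : Type} [TEnc α]

theorem poly_nm {ty i j : α → ℕ} (ht : NPC.Poly ty) (hi : NPC.Poly i) (hj : NPC.Poly j) :
    NPC.Poly (fun a => nm (ty a) (i a) (j a)) :=
  NPC.Poly.add (NPC.Poly.mul (NPC.Poly.const 16) (poly_natPair hi hj)) ht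

theorem poly_nv (ty : ℕ) {i : α → ℕ} (hi : NPC.Poly i) :
    NPC.Poly (fun a => Tm.var (nm ty (i a) 0)) :=
  poly_tvar (poly_nm (NPC.Poly.const ty) hi (NPC.Poly.const 0))

theorem upoly_nn {S : α → List ER.Con} (hS : NPC.Poly S) : UPoly (fun a => nn (S a)) :=
  UPoly.length (poly_varsOf hS)

theorem poly_chT {m : α → ℕ} (hm : UPoly m) : NPC.Poly (fun a => chT (m a)) := by
  unfold chT
  refine poly_conj (NPC.Poly.map (F := fun _ t => Fm.eq (Tm.var (nm 9 (t + 1) 0))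
    (Tm.mul (Tm.var (nm 9 t 0)) (Tm.var (nm 9 t 0)))) hm.range ?_)
  have h1 : NPC.Poly (fun q : α × ℕ => q.2) := NPC.Poly.snd NPC.Poly.id
  exact poly_feq (poly_nv 9 (NPC.Poly.succ h1)) (poly_tmul (poly_nv 9 h1) (poly_nv 9 h1))

theorem poly_gapF (h1 : S_PU) (h4 : S_PB) {E : α → List ℕ} {S : α → List ER.Con} {r : α → ℕ}
    (hE : NPC.Poly E) (hS : NPC.Poly S) (hr : UPoly r) :
    NPC.Poly (fun a => gapF (E a) (S a) (r a)) := by
  have hb := (h1 α (fun a => nn (S a)) (upoly_nn hS)).2.2.2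
  unfold gapF
  refine poly_conj (NPC.Poly.cons (h4 α E S r hE hS hr) (NPC.Poly.cons (NPC.Poly.const _)
    (NPC.Poly.cons (poly_chT hb) (NPC.Poly.cons (NPC.Poly.const _) (NPC.Poly.cons
    (NPC.Poly.const _) (NPC.Poly.cons (NPC.Poly.const _) (NPC.Poly.cons ?_
    (NPC.Poly.const []))))))))
  exact poly_fle (NPC.Poly.const _) (poly_nv 9 hb.toPoly)

theorem poly_rangeMap {β : Type} [TEnc β] {n : α → ℕ} (hn : UPoly n) {F : α → ℕ → β}
    (hF : NPC.Poly (fun q : α × ℕ => F q.1 (min q.2 (n q.1)))) :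
    NPC.Poly (fun a => (List.range (n a + 1)).map fun r => F a r) := by
  refine NPC.Poly.congr (f := fun a => (List.range (n a + 1)).map fun r => F a (min r (n a))) ?_
    fun a => ?_
  · exact NPC.Poly.map (F := fun a r => F a (min r (n a))) (UPoly.add hn (UPoly.const 1)).range hF
  · refine List.map_congr_left fun r hr => ?_
    have h : r ≤ n a := by
      have := List.mem_range.1 hr
      omega
    rw [min_eq_left h]

theorem upoly_min {n : α → ℕ} (hn : UPoly n) : UPoly (fun q : α × ℕ => min q.2 (n q.1)) :=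
  UPoly.of_le (NPC.Poly.min (NPC.Poly.snd NPC.Poly.id)
    (hn.toPoly.comp (NPC.Poly.fst NPC.Poly.id))) (UPoly.comp hn (NPC.Poly.fst NPC.Poly.id))
    fun _ => min_le_right _ _

theorem poly_gapD (h1 : S_PU) (h4 : S_PB) {E : α → List ℕ} {S : α → List ER.Con}
    (hE : NPC.Poly E) (hS : NPC.Poly S) : NPC.Poly (fun a => gapD (E a) (S a)) := by
  unfold gapD
  refine poly_disj (poly_rangeMap (F := fun a r => gapF (E a) (S a) r) (upoly_nn hS) ?_)
  exact poly_gapF h1 h4 (hE.comp (NPC.Poly.fst NPC.Poly.id)) (hS.comp (NPC.Poly.fst NPC.Poly.id))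
    (upoly_min (upoly_nn hS))

theorem upoly_KK (h1 : S_PU) (h4 : S_PB) {E : α → List ℕ} {S : α → List ER.Con}
    (hE : NPC.Poly E) (hS : NPC.Poly S) : UPoly (fun a => KK (E a) (S a)) :=
  upoly_kap (poly_gapD h1 h4 hE hS)

theorem poly_finF (h1 : S_PU) (h4 : S_PB) {E : α → List ℕ} {S : α → List ER.Con} {r : α → ℕ}
    (hE : NPC.Poly E) (hS : NPC.Poly S) (hr : UPoly r) :
    NPC.Poly (fun a => finF (E a) (S a) (r a)) := by
  have hb := (h1 α (fun a => nn (S a)) (upoly_nn hS)).2.2.2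
  have hK := upoly_KK h1 h4 hE hS
  have hKb := UPoly.add hK hb
  unfold finF
  refine poly_conj (NPC.Poly.cons (h4 α E S r hE hS hr) (NPC.Poly.cons (NPC.Poly.const _)
    (NPC.Poly.cons (poly_chT hKb) (NPC.Poly.cons ?_ (NPC.Poly.cons ?_ (NPC.Poly.const []))))))
  · exact poly_feq (NPC.Poly.const _) (poly_nv 9 hK.toPoly)
  · exact poly_feq (NPC.Poly.const _) (poly_nv 9 hKb.toPoly)

theorem poly_fvars {φ : α → Fm} (hφ : NPC.Poly φ) : NPC.Poly (fun a => fvars (φ a)) := by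
  unfold fvars
  refine NPC.Poly.flatMap (F := fun _ t => tokv t) (fm_toks hφ) ?_
  unfold tokv
  have h1 : NPC.Poly (fun q : α × Tok => q.2.code) := poly_tok_code (NPC.Poly.snd NPC.Poly.id)
  exact NPC.Poly.ite (NPC.Poly.decide_eq (NPC.Poly.fst h1) (NPC.Poly.const 0))
    (NPC.Poly.cons (NPC.Poly.snd h1) (NPC.Poly.const [])) (NPC.Poly.const [])

theorem poly_djp {l : α → List Fm} (hl : NPC.Poly l) : NPC.Poly (fun a => djp (l a)) := by
  unfold djp
  refine poly_disj (NPC.Poly.map (F := fun a φ => Fm.and φ (conj (((l a).flatMap fvars).map fun i =>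
    if i ∈ fvars φ then tt else Fm.eq (Tm.var i) Tm.zero))) hl ?_)
  have hl' : NPC.Poly (fun q : α × Fm => (l q.1).flatMap fvars) :=
    NPC.Poly.flatMap (F := fun _ φ => fvars φ) (hl.comp (NPC.Poly.fst NPC.Poly.id))
      (poly_fvars (NPC.Poly.snd NPC.Poly.id))
  refine poly_fand (NPC.Poly.snd NPC.Poly.id) (poly_conj (NPC.Poly.map
    (F := fun (q : α × Fm) i => if i ∈ fvars q.2 then tt else Fm.eq (Tm.var i) Tm.zero) hl' ?_))
  have h2 : NPC.Poly (fun q : (α × Fm) × ℕ => q.2) := NPC.Poly.snd NPC.Poly.id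
  have h3 : NPC.Poly (fun q : (α × Fm) × ℕ => fvars q.1.2) :=
    poly_fvars (NPC.Poly.snd (NPC.Poly.fst NPC.Poly.id))
  exact NPC.Poly.ite (NPC.Poly.decide_mem h2 h3) (NPC.Poly.const _)
    (poly_feq (poly_tvar h2) (NPC.Poly.const _))

theorem poly_chX (h1 : S_PU) (h2 : S_PQ) {n : α → ℕ} {wn xn : α → ℕ → ℕ} (hn : UPoly n)
    (hw : NPC.Poly (fun q : α × ℕ => wn q.1 q.2)) (hx : NPC.Poly (fun q : α × ℕ => xn q.1 q.2)) :
    NPC.Poly (fun a => chX (n a) (wn a) (xn a)) := by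
  have hb := (h1 α n hn).2.1
  unfold chX
  refine poly_conj (NPC.Poly.cons (poly_feq (poly_tvar ?_) (h2 α n wn hn hw).1)
    (NPC.Poly.map (F := fun a t => Fm.eq (Tm.var (xn a (t + 1)))
      (Tm.mul (Tm.var (xn a t)) (Tm.var (xn a t)))) hb.range ?_))
  · exact NPC.Poly.comp (g := fun q : α × ℕ => xn q.1 q.2) hx
      (NPC.Poly.pair NPC.Poly.id (NPC.Poly.const 0))
  · have e1 : NPC.Poly (fun q : α × ℕ => xn q.1 (q.2 + 1)) :=
      NPC.Poly.comp (g := fun q : α × ℕ => xn q.1 q.2) hx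
        (NPC.Poly.pair (NPC.Poly.fst NPC.Poly.id) (NPC.Poly.succ (NPC.Poly.snd NPC.Poly.id)))
    exact poly_feq (poly_tvar e1) (poly_tmul (poly_tvar hx) (poly_tvar hx))

theorem pfT (h1 : S_PU) (h2 : S_PQ) (h3 : S_PG) (h4 : S_PB) : S_PF := by
  intro α _ E S hE hS
  have hn := upoly_nn hS
  constructor
  · unfold FF
    refine poly_djp (poly_rangeMap (F := fun a r => finF (E a) (S a) r) hn ?_)
    exact poly_finF h1 h4 (hE.comp (NPC.Poly.fst NPC.Poly.id))
      (hS.comp (NPC.Poly.fst NPC.Poly.id)) (upoly_min hn)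
  · have hb := (h1 α (fun a => nn (S a)) hn).2.1
    have hw : NPC.Poly (fun q : α × ℕ => (fun (_ : α) (j : ℕ) => nm 10 j 0) q.1 q.2) :=
      poly_nm (NPC.Poly.const 10) (NPC.Poly.snd NPC.Poly.id) (NPC.Poly.const 0)
    have hx : NPC.Poly (fun q : α × ℕ => (fun (_ : α) (j : ℕ) => nm 11 j 0) q.1 q.2) :=
      poly_nm (NPC.Poly.const 11) (NPC.Poly.snd NPC.Poly.id) (NPC.Poly.const 0)
    have hc := poly_chX h1 h2 (n := fun a => nn (S a)) (wn := fun (_ : α) j => nm 10 j 0)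
      (xn := fun (_ : α) t => nm 11 t 0) hn hw hx
    have hg := (h3 α E S (fun _ j => nm 10 j 0) (fun a => Tm.var (nm 11 (b0 (nn (S a))) 0))
      (fun _ => Tm.zero) hE hS hw (poly_nv 11 hb.toPoly) (NPC.Poly.const _)).1
    unfold kF
    exact poly_conj (NPC.Poly.cons hc (NPC.Poly.cons (poly_fle hg (NPC.Poly.const _))
      (NPC.Poly.const [])))

end Pool.Agent.W303.IP
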